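import Pool.Agent.Run7.h664.NL.Iface

/-! Project NL (helper664), piece CLO (helper651): the stabilizer subgroup is closed. -/

set_option autoImplicit false

namespace Run7.h651.NL

open Run7.h664.NL Finset Filter Topology Pool.Agent.TH91.RF Pool.Agent.TH91.NB Pool.Agent.TH91.LG

theorem t_CLO : S_CLO := by
  intro hHHP hGGM N d C P H X _ _ _ _ x0 D k
  obtain ⟨M, hM, hP⟩ : ∃ M : ℕ, 1 ≤ M ∧ ∀ i, (P i).natDegree ≤ M := by
    refine ⟨1 + ∑ i, (P i).natDegree, by omega, fun i => ?_⟩
    have := Finset.single_le_sum (f := fun i => (P i).natDegree) (fun _ _ => Nat.zero_le _)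
      (Finset.mem_univ i)
    omega
  obtain ⟨h1, -⟩ := hHHP N d M C P hM hP
  have hH : ∀ x : GG C P, ∀ p, (x : BG N d).u p ∈ H := by
    intro x p
    obtain ⟨F, hF, m, hxu⟩ := (hGGM hHHP N d C P x).1 x.2
    rw [hxu p]
    exact H.mul_mem (D.mem _ (h1 F hF p)) (H.zpow_mem D.memc m)
  have hc : IsClosed ((MulAction.stabilizer H x0 : Subgroup H) : Set H) := by
    have h2 : ((MulAction.stabilizer H x0 : Subgroup H) : Set H) =
        (fun h : H => h • x0) ⁻¹' {x0} := by
      ext h
      rw [SetLike.mem_coe, MulAction.mem_stabilizer_iff, Set.mem_preimage, Set.mem_singleton_iff]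
    rw [h2]
    exact isClosed_singleton.preimage (continuous_id.smul continuous_const)
  have e : (Lam C P (H := H) x0 k : Set (GG C P)) =
      (⋂ p, (fun x : GG C P => (⟨(x : BG N d).u p, hH x p⟩ : H)) ⁻¹'
        ((MulAction.stabilizer H x0 : Subgroup H) : Set H)) ∩
      (fun x : GG C P => (x : BG N d).s) ⁻¹' {n | (k : ℤ) ∣ n} := by
    ext x
    constructor
    · rintro ⟨ha, hb⟩
      refine ⟨Set.mem_iInter.2 fun p => ?_, hb⟩
      obtain ⟨h, hh, he⟩ := ha p
      have h3 : (⟨(x : BG N d).u p, hH x p⟩ : H) = h := Subtype.ext he.symm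
      rw [Set.mem_preimage, h3]
      exact hh
    · rintro ⟨ha, hb⟩
      exact ⟨fun p => ⟨_, Set.mem_iInter.1 ha p, rfl⟩, hb⟩
  rw [e]
  refine IsClosed.inter (isClosed_iInter fun p => hc.preimage ?_)
    ((isClosed_discrete _).preimage ?_)
  · exact ((BG.continuous_u p).comp continuous_subtype_val).subtype_mk _
  · exact BG.continuous_s.comp continuous_subtype_val

end Run7.h651.NL
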