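import Pool.Agent.Run7.h664.NL.Iface

/-! Project NL (helper664), piece NIL (helper651): the big group is nilpotent. -/

set_option autoImplicit false

namespace Run7.h651.NL

open Run7.h664.NL Finset Filter Topology Pool.Agent.TH91.RF Pool.Agent.TH91.NB Pool.Agent.TH91.LG

theorem const_mem {N d M : ℕ} (hM : 1 ≤ M) {y : Mt N} (hy : y ∈ (mF N).F 1) :
    ((fun _ => y : ℤ × Fin d → Mt N) : AF N d) ∈ (wtF N d M).F 1 := by
  rw [mem_wtF]
  intro i r s
  refine ⟨Polynomial.C (y r s), fun l => by rw [Polynomial.eval_C], ?_⟩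
  by_cases h : (s : ℕ) < r + 1
  · left
    have h0 : y r s = 0 := hy r s h
    rw [h0, Polynomial.C_0]
  · right
    refine ⟨by omega, ?_⟩
    rw [Polynomial.natDegree_C, zero_add]
    have h1 : 1 ≤ (s : ℕ) - r := by omega
    exact Nat.mul_le_mul hM h1

theorem exp_apply {N d : ℕ} (F : AF N d) (hF : IsNilpotent F) (p : ℤ × Fin d) :
    (IsNilpotent.exp F : AF N d) p = IsNilpotent.exp (F p) :=
  IsNilpotent.map_exp hF (Pi.evalRingHom (fun _ : ℤ × Fin d => Mt N) p)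

theorem deg_bd {d : ℕ} (P : Fin d → Polynomial ℤ) : ∃ M : ℕ, 1 ≤ M ∧ ∀ i, (P i).natDegree ≤ M := by
  refine ⟨1 + ∑ i, (P i).natDegree, by omega, fun i => ?_⟩
  have := Finset.single_le_sum (f := fun i => (P i).natDegree) (fun _ _ => Nat.zero_le _)
    (Finset.mem_univ i)
  omega

theorem t_NIL : S_NIL := by
  intro hHHP hGGM hUNI N d C P
  obtain ⟨M, hM, hP⟩ := deg_bd P
  obtain ⟨h1, h2, -⟩ := hHHP N d M C P hM hP
  refine hUNI N d M (GG C P) fun x hx => ?_
  obtain ⟨F, hF, m, hxu⟩ := (hGGM hHHP N d C P x).1 hx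
  have e : (fun p => ((x.u p : (Mt N)ˣ) : Mt N)) = (IsNilpotent.exp F : AF N d) *
      (fun _ => ((E C.Mc ^ m : (Mt N)ˣ) : Mt N)) := by
    funext p
    rw [hxu p, Pi.mul_apply, Units.val_mul, E_val (C.sup _ (h1 F hF p)),
      exp_apply F ((wtF N d M).nilp (h2 F hF)) p]
  rw [e]
  refine (wtF N d M).one_add_mul_mem ((wtF N d M).exp_sub_one_mem (h2 F hF)) ?_
  have h3 : (((E C.Mc ^ m : (Mt N)ˣ) : Mt N)) - 1 ∈ (mF N).F 1 := by
    unfold E
    rw [dif_pos C.supMc, J1261.ue_zpow]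
    exact (mF N).exp_sub_one_mem (J1261.smul_mem C.supMc _)
  exact const_mem hM h3

end Run7.h651.NL
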